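import Mathlib

open Finset

namespace Q164.MC

set_option linter.unusedSectionVars false
set_option linter.deprecated false

variable {ι : Type*} [Fintype ι] [DecidableEq ι]

/-- The symmetric polynomial `∑ binom(d,m)^2 x^m`. -/
noncomputable def P (d : ℕ) (x : ι → ℝ) : ℝ :=
  ∑ m ∈ piAntidiag univ d, (Nat.multinomial univ m : ℝ) ^ 2 * ∏ t, x t ^ m t

noncomputable def B (u : ℝ) : PowerSeries ℝ :=
  PowerSeries.mk fun k => u ^ k / (k.factorial : ℝ) ^ 2

lemma multinomial_sq (d : ℕ) (m : ι → ℕ) (hm : ∑ t, m t = d) :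
    (Nat.multinomial univ m : ℝ) ^ 2 = (d.factorial : ℝ) ^ 2 * ∏ t, (1 / ((m t).factorial : ℝ) ^ 2) := by
  have h := Nat.multinomial_spec (s := (univ : Finset ι)) (f := m)
  rw [hm] at h
  have h2 : (∏ t, ((m t).factorial : ℝ)) * (Nat.multinomial univ m : ℝ) = (d.factorial : ℝ) := by
    exact_mod_cast h
  rw [← h2, Finset.prod_div_distrib, Finset.prod_pow]
  have h3 : (∏ t, ((m t).factorial : ℝ)) ≠ 0 :=
    Finset.prod_ne_zero_iff.mpr fun t _ => by positivity
  simp only [Finset.prod_const_one]
  field_simp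

lemma P_eq (d : ℕ) (x : ι → ℝ) :
    P d x = (d.factorial : ℝ) ^ 2 * PowerSeries.coeff d (∏ t, B (x t)) := by
  rw [PowerSeries.coeff_prod, mul_sum]
  unfold P
  symm
  apply Finset.sum_bij (fun (l : ι →₀ ℕ) _ => (l : ι → ℕ))
  · intro l hl
    simp only [mem_finsuppAntidiag] at hl
    simp [hl.1]
  · intro l _ l' _ h
    exact DFunLike.coe_injective h
  · intro m hm
    simp only [mem_piAntidiag] at hm
    refine ⟨Finsupp.equivFunOnFinite.symm m, ?_, rfl⟩
    simp [mem_finsuppAntidiag, hm.1]
  · intro l hl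
    simp only [mem_finsuppAntidiag] at hl
    rw [multinomial_sq d _ hl.1, mul_assoc, ← Finset.prod_mul_distrib]
    congr 1
    apply Finset.prod_congr rfl
    intro t _
    simp only [B, PowerSeries.coeff_mk]
    ring

noncomputable def G (j : ℕ) (S T : ℝ) : ℝ :=
  ∑ k ∈ range (j + 1), S ^ k * (j.choose k : ℝ) *
    ∑ i ∈ range (j - k + 1), if 2 * i = j - k then ((j - k).choose i : ℝ) * T ^ i else 0

lemma coeff_one_add (x : ℝ) (j a : ℕ) :
    ((1 + Polynomial.C x * Polynomial.X) ^ j).coeff a = x ^ a * (j.choose a : ℝ) := by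
  rw [add_comm, add_pow, Polynomial.finsetSum_coeff]
  simp only [one_pow, mul_one, mul_pow, ← Polynomial.C_pow]
  rcases lt_or_ge j a with h | h
  · rw [Nat.choose_eq_zero_of_lt h]
    simp only [Nat.cast_zero, mul_zero]
    apply Finset.sum_eq_zero
    intro k hk
    simp only [mem_range] at hk
    rw [mul_assoc, Polynomial.coeff_C_mul, mul_comm (Polynomial.X ^ k), ← Polynomial.C_eq_natCast,
      Polynomial.coeff_C_mul_X_pow, if_neg (by omega), mul_zero]
  · rw [Finset.sum_eq_single a]
    · rw [mul_assoc, Polynomial.coeff_C_mul, mul_comm (Polynomial.X ^ a), ← Polynomial.C_eq_natCast,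
        Polynomial.coeff_C_mul_X_pow, if_pos rfl]
    · intro k _ hka
      rw [mul_assoc, Polynomial.coeff_C_mul, mul_comm (Polynomial.X ^ k), ← Polynomial.C_eq_natCast,
        Polynomial.coeff_C_mul_X_pow, if_neg (Ne.symm hka), mul_zero]
    · intro h'
      simp only [mem_range, not_lt] at h'
      omega

lemma coeff_quad (S T : ℝ) (j : ℕ) :
    ((1 + Polynomial.C S * Polynomial.X + Polynomial.C T * Polynomial.X ^ 2) ^ j).coeff j
      = G j S T := by
  have e : (1 + Polynomial.C S * Polynomial.X + Polynomial.C T * Polynomial.X ^ 2 : Polynomial ℝ)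
      = Polynomial.C S * Polynomial.X + (Polynomial.C T * Polynomial.X ^ 2 + 1) := by ring
  rw [e, add_pow, Polynomial.finsetSum_coeff]
  unfold G
  apply Finset.sum_congr rfl
  intro k hk
  simp only [mem_range] at hk
  have hk' : k ≤ j := by omega
  have e2 : (Polynomial.C S * Polynomial.X) ^ k * (Polynomial.C T * Polynomial.X ^ 2 + 1) ^ (j - k)
      * ((j.choose k : ℕ) : Polynomial ℝ) = Polynomial.C (S ^ k * (j.choose k : ℝ)) *
        ((Polynomial.C T * Polynomial.X ^ 2 + 1) ^ (j - k) * Polynomial.X ^ k) := by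
    rw [mul_pow, Polynomial.C_mul, Polynomial.C_pow, Polynomial.C_eq_natCast]
    ring
  rw [e2, Polynomial.coeff_C_mul, Polynomial.coeff_mul_X_pow', if_pos hk', add_pow,
    Polynomial.finsetSum_coeff]
  congr 1
  apply Finset.sum_congr rfl
  intro i _
  simp only [one_pow, mul_one, mul_pow, ← Polynomial.C_pow, ← pow_mul]
  rw [mul_assoc, Polynomial.coeff_C_mul, mul_comm (Polynomial.X ^ _), ← Polynomial.C_eq_natCast,
    Polynomial.coeff_C_mul_X_pow]
  by_cases h : 2 * i = j - k
  · rw [if_pos h.symm, if_pos h]; ring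
  · rw [if_neg (Ne.symm h), if_neg h, mul_zero]

lemma coeff_BB (x y : ℝ) (j : ℕ) :
    PowerSeries.coeff j (B x * B y) = G j (x + y) (x * y) / (j.factorial : ℝ) ^ 2 := by
  rw [← coeff_quad]
  have e : (1 + Polynomial.C (x + y) * Polynomial.X + Polynomial.C (x * y) * Polynomial.X ^ 2 :
      Polynomial ℝ) = (1 + Polynomial.C x * Polynomial.X) * (1 + Polynomial.C y * Polynomial.X) := by
    rw [Polynomial.C_add, Polynomial.C_mul]; ring
  rw [e, mul_pow, Polynomial.coeff_mul, PowerSeries.coeff_mul, Finset.sum_div]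
  apply Finset.sum_congr rfl
  rintro ⟨a, b⟩ hab
  rw [Finset.HasAntidiagonal.mem_antidiagonal] at hab
  dsimp only at hab
  simp only [coeff_one_add, B, PowerSeries.coeff_mk]
  subst hab
  have h2 : ((a + b).choose b : ℝ) = ((a + b).choose a : ℝ) := by
    exact_mod_cast (Nat.choose_symm_add (a := a) (b := b)).symm
  have h1 : ((a + b).choose a : ℝ) * (a.factorial : ℝ) * (b.factorial : ℝ) = ((a + b).factorial : ℝ) := by
    rw [← h2]
    exact_mod_cast Nat.add_choose_mul_factorial_mul_factorial a b
  rw [h2, ← h1]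
  have ha : (a.factorial : ℝ) ≠ 0 := by positivity
  have hb : (b.factorial : ℝ) ≠ 0 := by positivity
  have hc : ((a + b).choose a : ℝ) ≠ 0 := by
    have := Nat.choose_pos (Nat.le_add_right a b)
    positivity
  field_simp

lemma G_mono (j : ℕ) {S T T' : ℝ} (hS : 0 ≤ S) (hT : 0 ≤ T) (h : T ≤ T') :
    G j S T ≤ G j S T' := by
  unfold G
  apply Finset.sum_le_sum
  intro k _
  apply mul_le_mul_of_nonneg_left _ (by positivity)
  apply Finset.sum_le_sum
  intro i _
  split_ifs
  · gcongr
  · exact le_rfl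

lemma G_strict (j : ℕ) (hj : 2 ≤ j) {S T T' : ℝ} (hS : 0 < S) (hT : 0 ≤ T) (h : T < T') :
    G j S T < G j S T' := by
  unfold G
  apply Finset.sum_lt_sum
  · intro k _
    apply mul_le_mul_of_nonneg_left _ (by positivity)
    apply Finset.sum_le_sum
    intro i _
    split_ifs
    · gcongr
    · exact le_rfl
  · refine ⟨j - 2, by rw [mem_range]; omega, ?_⟩
    have hc : (0 : ℝ) < (j.choose (j - 2) : ℝ) := by
      have := Nat.choose_pos (Nat.sub_le j 2)
      exact_mod_cast this
    apply mul_lt_mul_of_pos_left _ (by positivity)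
    apply Finset.sum_lt_sum
    · intro i _
      split_ifs
      · gcongr
      · exact le_rfl
    · refine ⟨1, by rw [mem_range]; omega, ?_⟩
      have e : j - (j - 2) = 2 := by omega
      rw [e]
      norm_num
      exact h

lemma coeff_B_nonneg {u : ℝ} (hu : 0 ≤ u) (k : ℕ) : 0 ≤ PowerSeries.coeff k (B u) := by
  simp only [B, PowerSeries.coeff_mk]; positivity

lemma coeff_prod_nonneg (s : Finset ι) (x : ι → ℝ) (hx : ∀ t, 0 ≤ x t) (k : ℕ) :
    0 ≤ PowerSeries.coeff k (∏ t ∈ s, B (x t)) := by
  rw [PowerSeries.coeff_prod]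
  exact Finset.sum_nonneg fun l _ => Finset.prod_nonneg fun t _ => coeff_B_nonneg (hx t) _

lemma coeff_zero_prod (s : Finset ι) (x : ι → ℝ) :
    PowerSeries.coeff 0 (∏ t ∈ s, B (x t)) = 1 := by
  rw [PowerSeries.coeff_zero_eq_constantCoeff, map_prod]
  apply Finset.prod_eq_one
  intro t _
  rw [← PowerSeries.coeff_zero_eq_constantCoeff]
  simp [B]

/-- replacing two different coordinates by their mean increases `P` strictly -/
lemma P_avg (d : ℕ) (hd : 2 ≤ d) (x : ι → ℝ) (hx : ∀ t, 0 ≤ x t) (s t : ι) (hst : s ≠ t)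
    (hne : x s ≠ x t) :
    P d x < P d (Function.update (Function.update x s ((x s + x t) / 2)) t ((x s + x t) / 2)) := by
  set μ := (x s + x t) / 2 with hμ
  set x' := Function.update (Function.update x s μ) t μ with hx'
  have hs' : x' s = μ := by
    rw [hx', Function.update_of_ne hst, Function.update_self]
  have ht' : x' t = μ := by rw [hx', Function.update_self]
  have hu' : ∀ u, u ≠ s → u ≠ t → x' u = x u := fun u h1 h2 => by
    rw [hx', Function.update_of_ne h2, Function.update_of_ne h1]
  have split : ∀ y : ι → ℝ, (∏ u, B (y u)) = (B (y s) * B (y t)) * ∏ u ∈ (univ.erase s).erase t, B (y u) := by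
    intro y
    rw [mul_assoc, Finset.mul_prod_erase (univ.erase s) (fun u => B (y u))
      (by simp [Ne.symm hst]), Finset.mul_prod_erase univ (fun u => B (y u)) (mem_univ s)]
  have hrest : (∏ u ∈ (univ.erase s).erase t, B (x' u)) = ∏ u ∈ (univ.erase s).erase t, B (x u) := by
    apply Finset.prod_congr rfl
    intro u hu
    simp only [mem_erase, mem_univ, and_true] at hu
    rw [hu' u hu.2 hu.1]
  rw [P_eq, P_eq, split x, split x', hrest, hs', ht']
  have hd2 : (0 : ℝ) < (d.factorial : ℝ) ^ 2 := by positivity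
  apply mul_lt_mul_of_pos_left _ hd2
  rw [PowerSeries.coeff_mul, PowerSeries.coeff_mul]
  have hsum : μ + μ = x s + x t := by rw [hμ]; ring
  have hprod : x s * x t < μ * μ := by
    have : 0 < (x s - x t) ^ 2 := by
      have := sub_ne_zero.mpr hne
      positivity
    rw [hμ]; nlinarith
  have hS : 0 < x s + x t := by
    rcases lt_or_gt_of_ne hne with h | h
    · have := hx s; linarith
    · have := hx t; linarith
  apply Finset.sum_lt_sum
  · rintro ⟨a, b⟩ _
    simp only
    apply mul_le_mul_of_nonneg_right _ (coeff_prod_nonneg _ x hx b)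
    rw [coeff_BB, coeff_BB, hsum]
    apply div_le_div_of_nonneg_right _ (by positivity)
    exact G_mono a hS.le (mul_nonneg (hx s) (hx t)) hprod.le
  · refine ⟨(d, 0), by simp, ?_⟩
    simp only
    rw [coeff_zero_prod, mul_one, mul_one, coeff_BB, coeff_BB, hsum]
    apply div_lt_div_of_pos_right _ (by positivity)
    exact G_strict d hd hS (mul_nonneg (hx s) (hx t)) hprod

lemma P_continuous (d : ℕ) : Continuous (P (ι := ι) d) := by
  unfold P
  fun_prop

lemma P_const (d : ℕ) (a : ℝ) : P (ι := ι) d (fun _ => a) = a ^ d * P (ι := ι) d (fun _ => 1) := by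
  unfold P
  rw [mul_sum]
  apply Finset.sum_congr rfl
  intro m hm
  simp only [mem_piAntidiag] at hm
  rw [Finset.prod_pow_eq_pow_sum, hm.1]
  simp
  ring

lemma P_one_pos (d : ℕ) [Nonempty ι] : 0 < P (ι := ι) d (fun _ => 1) := by
  unfold P
  apply Finset.sum_pos
  · intro m _
    have := Nat.multinomial_pos (s := (univ : Finset ι)) (f := m)
    simp only [one_pow, Finset.prod_const_one, mul_one]
    positivity
  · obtain ⟨s⟩ := ‹Nonempty ι›
    refine ⟨Pi.single s d, ?_⟩
    simp

/-- The maximum of `P` on a simplex is attained exactly at the barycentre. -/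
theorem P_le (d : ℕ) (hd : 2 ≤ d) [Nonempty ι] (x : ι → ℝ) (hx : ∀ t, 0 ≤ x t) :
    P d x ≤ ((∑ t, x t) / Fintype.card ι) ^ d * P (ι := ι) d (fun _ => 1) ∧
    (P d x = ((∑ t, x t) / Fintype.card ι) ^ d * P (ι := ι) d (fun _ => 1) →
      ∀ s t, x s = x t) := by
  set c := ∑ t, x t with hc
  set K : Set (ι → ℝ) := {y | (∀ t, 0 ≤ y t) ∧ ∑ t, y t = c} with hK
  have hKc : IsCompact K := by
    have hcl : IsClosed K := by
      have h1 : IsClosed {y : ι → ℝ | ∀ t, 0 ≤ y t} := by
        rw [Set.setOf_forall]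
        exact isClosed_iInter fun t => isClosed_le continuous_const (continuous_apply t)
      have h2 : IsClosed {y : ι → ℝ | ∑ t, y t = c} :=
        isClosed_eq (by fun_prop) continuous_const
      exact h1.inter h2
    refine (isCompact_Icc (a := (0 : ι → ℝ)) (b := fun _ => c)).of_isClosed_subset hcl ?_
    rintro y ⟨h1, h2⟩
    refine ⟨fun t => h1 t, fun t => ?_⟩
    rw [← h2]
    exact Finset.single_le_sum (fun u _ => h1 u) (mem_univ t)
  have hKn : K.Nonempty := ⟨x, hx, rfl⟩
  obtain ⟨y, hyK, hy⟩ := hKc.exists_isMaxOn hKn (P_continuous d).continuousOn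
  have key : ∀ z ∈ K, IsMaxOn (P d) K z → ∀ s t, z s = z t := by
    intro z hz hmax s t
    by_contra hne
    have hst : s ≠ t := fun h => hne (by rw [h])
    have hlt := P_avg d hd z hz.1 s t hst hne
    have hmem : Function.update (Function.update z s ((z s + z t) / 2)) t ((z s + z t) / 2) ∈ K := by
      constructor
      · intro u
        have hm : 0 ≤ (z s + z t) / 2 := by have := hz.1 s; have := hz.1 t; linarith
        by_cases h1 : u = t
        · subst h1; rw [Function.update_self]; exact hm
        · rw [Function.update_of_ne h1]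
          by_cases h2 : u = s
          · subst h2; rw [Function.update_self]; exact hm
          · rw [Function.update_of_ne h2]; exact hz.1 u
      · rw [← hz.2, Finset.sum_update_of_mem (mem_univ t)]
        rw [← Finset.add_sum_erase univ (fun u => z u) (mem_univ t)]
        have e1 : (univ \ {t} : Finset ι) = univ.erase t := by
          ext u; simp
        rw [e1, ← Finset.add_sum_erase (univ.erase t) _ (show s ∈ univ.erase t by simp [hst]),
          ← Finset.add_sum_erase (univ.erase t) (fun u => z u) (show s ∈ univ.erase t by simp [hst]),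
          Function.update_self]
        have e2 : ∑ u ∈ (univ.erase t).erase s, Function.update z s ((z s + z t) / 2) u
            = ∑ u ∈ (univ.erase t).erase s, z u := by
          apply Finset.sum_congr rfl
          intro u hu
          simp only [mem_erase, mem_univ, and_true] at hu
          rw [Function.update_of_ne hu.1]
        rw [e2]; ring
    exact absurd (hmax hmem) (not_le.mpr hlt)
  have hyc : y = fun _ => c / Fintype.card ι := by
    have h1 := key y hyK hy
    obtain ⟨s₀⟩ := ‹Nonempty ι›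
    have h2 : ∑ t, y t = Fintype.card ι * y s₀ := by
      rw [Finset.sum_congr rfl (fun t _ => h1 t s₀)]
      simp
    have h3 : (Fintype.card ι : ℝ) ≠ 0 := by
      have : 0 < Fintype.card ι := Fintype.card_pos_iff.mpr ⟨s₀⟩
      positivity
    funext t
    rw [h1 t s₀, eq_div_iff h3, mul_comm, ← h2, hyK.2]
  have hval : P d y = (c / Fintype.card ι) ^ d * P (ι := ι) d (fun _ => 1) := by
    rw [hyc, P_const]
  rw [← hval]
  refine ⟨hy ⟨hx, rfl⟩, fun he => key x ⟨hx, rfl⟩ ?_⟩
  intro z hz
  simp only [Set.mem_setOf_eq, he]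
  exact hy hz

end Q164.MC
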