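import Mathlib
import Pool.Agent.Q164.MC.Schur

open Finset

namespace Q164.MC

set_option linter.unusedSectionVars false

variable {F : Type*} [Fintype F] [DecidableEq F]

lemma count_fun (k : ℕ) (b : Fin k → ℕ) (hb : ∑ j, b j = Fintype.card F) :
    (univ.filter fun g : F → Fin k => ∀ j, (univ.filter fun t => g t = j).card = b j).card
      = Nat.multinomial univ b := by
  set s : Fin k →₀ ℕ := Finsupp.equivFunOnFinite.symm b with hs
  have hsb : ∀ j, s j = b j := fun j => rfl
  have h1 : MvPolynomial.coeff s ((∑ j, (MvPolynomial.X j : MvPolynomial (Fin k) ℕ)) ^ Fintype.card F)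
      = Nat.multinomial univ b := by
    rw [Finset.sum_pow_eq_sum_piAntidiag, MvPolynomial.coeff_sum]
    rw [Finset.sum_eq_single b]
    · rw [← MvPolynomial.C_eq_coe_nat, MvPolynomial.coeff_C_mul, MvPolynomial.coeff_prod_X_pow,
        if_pos, mul_one]
      · simp
      · ext j
        simp [hsb]
    · intro b' _ hne
      rw [← MvPolynomial.C_eq_coe_nat, MvPolynomial.coeff_C_mul, MvPolynomial.coeff_prod_X_pow,
        if_neg, mul_zero]
      intro h
      apply hne
      funext j
      have := DFunLike.congr_fun h j
      simp [hsb] at this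
      exact this.symm
    · intro h
      exact absurd (by simp [hb]) h
  have h2 : MvPolynomial.coeff s ((∑ j, (MvPolynomial.X j : MvPolynomial (Fin k) ℕ)) ^ Fintype.card F)
      = (univ.filter fun g : F → Fin k =>
          ∀ j, (univ.filter fun t => g t = j).card = b j).card := by
    have e1 : (∑ j, (MvPolynomial.X j : MvPolynomial (Fin k) ℕ)) ^ Fintype.card F
        = ∑ g : F → Fin k, ∏ t, (MvPolynomial.X (g t) : MvPolynomial (Fin k) ℕ) := by
      rw [← Finset.card_univ, ← Finset.prod_const, Finset.prod_univ_sum, Fintype.piFinset_univ]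
    rw [e1, MvPolynomial.coeff_sum, Finset.card_filter]
    apply Finset.sum_congr rfl
    intro g _
    have e2 : (∏ t, (MvPolynomial.X (g t) : MvPolynomial (Fin k) ℕ))
        = MvPolynomial.monomial (∑ t, Finsupp.single (g t) 1) 1 := by
      rw [MvPolynomial.monomial_sum_one]
      rfl
    rw [e2, MvPolynomial.coeff_monomial]
    have e3 : (∑ t, Finsupp.single (g t) 1 = s) ↔
        ∀ j, (univ.filter fun t => g t = j).card = b j := by
      rw [Finsupp.ext_iff]
      apply forall_congr'
      intro j
      rw [Finsupp.finsetSum_apply, Finset.card_filter]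
      simp only [Finsupp.single_apply]
      rfl
    by_cases h : ∀ j, (univ.filter fun t => g t = j).card = b j
    · rw [if_pos (e3.mpr h), if_pos h]
    · rw [if_neg (fun h' => h (e3.mp h')), if_neg h]
  rw [← h1, h2]

/-- `∑_{partitions} binom(d,l)^2 binom(q,b(l))`. -/
noncomputable def Ksum (d q : ℕ) : ℝ :=
  ∑ π : Nat.Partition d,
    ((d.factorial : ℝ) / ((π.parts.map Nat.factorial).prod : ℝ)) ^ 2 *
    ((q.factorial : ℝ) / (((q - Multiset.card π.parts).factorial : ℝ) *
      ∏ j ∈ Icc 1 d, ((π.parts.count j).factorial : ℝ)))

open Classical in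
noncomputable def prt (d : ℕ) (m : F → ℕ) : Nat.Partition d :=
  if h : ∑ t, m t = d then Nat.Partition.ofSums d (univ.val.map m) h
  else Nat.Partition.indiscrete d

lemma prt_parts (d : ℕ) (m : F → ℕ) (h : ∑ t, m t = d) :
    (prt d m).parts = (univ.val.map m).filter (· ≠ 0) := by
  unfold prt
  rw [dif_pos h]
  rfl

lemma prod_fact (m : F → ℕ) :
    (((univ.val.map m).filter (· ≠ 0)).map Nat.factorial).prod = ∏ t, (m t).factorial := by
  have h : ∀ L : Multiset ℕ, ((L.filter (· ≠ 0)).map Nat.factorial).prod = (L.map Nat.factorial).prod := by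
    intro L
    induction L using Multiset.induction_on with
    | empty => simp
    | cons a L ih =>
      by_cases ha : a = 0
      · subst ha
        simpa using ih
      · rw [Multiset.filter_cons_of_pos (p := fun x : ℕ => x ≠ 0) L ha]
        simp [ih]
  rw [h, Multiset.map_map]
  rfl

noncomputable def bfun (d q : ℕ) (π : Nat.Partition d) (j : Fin (d + 1)) : ℕ :=
  if j = 0 then q - Multiset.card π.parts else π.parts.count j.val

lemma card_parts_le (d : ℕ) (π : Nat.Partition d) : Multiset.card π.parts ≤ d := by
  have h1 : ∀ L : Multiset ℕ, (∀ i ∈ L, 0 < i) → Multiset.card L ≤ L.sum := by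
    intro L
    induction L using Multiset.induction_on with
    | empty => simp
    | cons a L ih =>
      intro h
      have h2 := ih fun i hi => h i (Multiset.mem_cons_of_mem hi)
      have h3 := h a (Multiset.mem_cons_self a L)
      rw [Multiset.card_cons, Multiset.sum_cons]
      omega
  calc Multiset.card π.parts ≤ π.parts.sum := h1 _ fun i hi => π.parts_pos hi
    _ = d := π.parts_sum

lemma part_le (d : ℕ) (π : Nat.Partition d) (j : ℕ) (hj : j ∈ π.parts) : j ≤ d := by
  have := Multiset.le_sum_of_mem hj
  rwa [π.parts_sum] at this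

lemma sum_count (d : ℕ) (π : Nat.Partition d) :
    ∑ i : Fin d, π.parts.count (i.val + 1) = Multiset.card π.parts := by
  rw [← Multiset.toFinset_sum_count_eq]
  have e1 : ∑ i : Fin d, π.parts.count (i.val + 1) = ∑ j ∈ Icc 1 d, π.parts.count j := by
    rw [Finset.sum_range (f := fun i => π.parts.count (i + 1)) |>.symm]
    rw [Finset.range_eq_Ico, Finset.sum_Ico_add' (fun j => π.parts.count j) 0 d 1]
    rfl
  rw [e1]
  symm
  apply Finset.sum_subset
  · intro j hj
    rw [Multiset.mem_toFinset] at hj
    rw [mem_Icc]
    exact ⟨π.parts_pos hj, part_le d π j hj⟩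
  · intro j _ hj
    rw [Multiset.mem_toFinset] at hj
    exact Multiset.count_eq_zero_of_notMem hj

lemma sum_bfun (d q : ℕ) (hdq : d ≤ q) (π : Nat.Partition d) : ∑ j, bfun d q π j = q := by
  rw [Fin.sum_univ_succ]
  have h := card_parts_le d π
  have e : ∀ i : Fin d, bfun d q π i.succ = π.parts.count (i.val + 1) := by
    intro i
    unfold bfun
    rw [if_neg (Fin.succ_ne_zero i)]
    rfl
  simp only [e]
  rw [sum_count]
  unfold bfun
  rw [if_pos rfl]
  omega

lemma fiber_card (d : ℕ) (hdq : d ≤ Fintype.card F) (π : Nat.Partition d) :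
    ((piAntidiag (univ : Finset F) d).filter fun m => prt d m = π).card
      = Nat.multinomial univ (bfun d (Fintype.card F) π) := by
  rw [← count_fun (F := F) (d + 1) (bfun d (Fintype.card F) π) (sum_bfun d _ hdq π)]
  symm
  have hcnt : ∀ (m : F → ℕ) (j : ℕ), (univ.val.map m).count j = (univ.filter fun t => m t = j).card := by
    intro m j
    rw [Multiset.count_map]
    simp only [Finset.card_def, Finset.filter_val, eq_comm]
  have hcard : ∀ m : F → ℕ, Multiset.card (univ.val.map m) = Fintype.card F := by
    intro m; rw [Multiset.card_map]; rfl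
  have hsplit : ∀ L : Multiset ℕ, Multiset.card (L.filter (· ≠ 0)) + L.count 0 = Multiset.card L := by
    intro L
    induction L using Multiset.induction_on with
    | empty => simp
    | cons a L ih =>
      by_cases ha : a = 0
      · subst ha
        rw [Multiset.filter_cons_of_neg (p := fun x : ℕ => x ≠ 0) L (by simp), Multiset.count_cons_self,
          Multiset.card_cons]
        omega
      · rw [Multiset.filter_cons_of_pos (p := fun x : ℕ => x ≠ 0) L ha, Multiset.count_cons_of_ne (Ne.symm ha),
          Multiset.card_cons, Multiset.card_cons]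
        omega
  have hsumf : ∀ L : Multiset ℕ, (L.filter (· ≠ 0)).sum = L.sum := by
    intro L
    induction L using Multiset.induction_on with
    | empty => simp
    | cons a L ih =>
      by_cases ha : a = 0
      · subst ha; simpa using ih
      · rw [Multiset.filter_cons_of_pos (p := fun x : ℕ => x ≠ 0) L ha]; simp [ih]
  have hkey : ∀ (m : F → ℕ), (∀ t, m t < d + 1) →
      ((∀ j : Fin (d + 1), (univ.filter fun t => m t = j.val).card = bfun d (Fintype.card F) π j) ↔
        (∑ t, m t = d ∧ (univ.val.map m).filter (· ≠ 0) = π.parts)) := by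
    intro m hm
    constructor
    · intro h
      have hL : (univ.val.map m).filter (· ≠ 0) = π.parts := by
        ext j
        rw [Multiset.count_filter]
        by_cases hj0 : j = 0
        · subst hj0
          simp only [ne_eq, not_true_eq_false, if_false]
          symm
          apply Multiset.count_eq_zero_of_notMem
          intro h0
          exact absurd (π.parts_pos h0) (lt_irrefl 0)
        · rw [if_pos hj0, hcnt]
          rcases lt_or_ge j (d + 1) with hjd | hjd
          · have := h ⟨j, hjd⟩
            simp only at this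
            rw [this]
            unfold bfun
            rw [if_neg]
            intro h0
            exact hj0 (congrArg Fin.val h0)
          · rw [Multiset.count_eq_zero_of_notMem (fun hmem => by
              have := part_le d π j hmem; omega)]
            rw [Finset.card_eq_zero, Finset.filter_eq_empty_iff]
            intro t _ ht
            have := hm t
            omega
      refine ⟨?_, hL⟩
      have := hsumf (univ.val.map m)
      rw [hL, π.parts_sum] at this
      exact this.symm
    · rintro ⟨_, hL⟩ j
      unfold bfun
      split_ifs with hj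
      · subst hj
        have h1 := hsplit (univ.val.map m)
        rw [hL, hcnt, hcard] at h1
        have h2 : (univ.filter fun t => m t = ((0 : Fin (d + 1)) : ℕ)).card
            = (univ.filter fun t => m t = 0).card := rfl
        omega
      · rw [← hL, Multiset.count_filter, if_pos, hcnt]
        intro h0
        apply hj
        exact Fin.ext h0
  apply Finset.card_bij (fun (g : F → Fin (d + 1)) _ => fun t => (g t).val)
  · intro g hg
    simp only [mem_filter, mem_univ, true_and] at hg
    have hg' := (hkey (fun t => (g t).val) (fun t => (g t).isLt)).mp (by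
      intro j
      rw [← hg j]
      congr 1
      ext t
      simp [Fin.ext_iff])
    simp only [mem_filter, mem_piAntidiag, mem_univ, implies_true, and_true]
    refine ⟨hg'.1, ?_⟩
    apply Nat.Partition.ext
    rw [prt_parts d _ hg'.1, hg'.2]
  · intro g _ g' _ h
    funext t
    exact Fin.ext (congrFun h t)
  · intro m hm
    simp only [mem_filter, mem_piAntidiag, mem_univ, implies_true, and_true] at hm
    have hlt : ∀ t, m t < d + 1 := by
      intro t
      have := Finset.single_le_sum (f := m) (fun i _ => Nat.zero_le _) (mem_univ t)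
      rw [hm.1] at this
      omega
    refine ⟨fun t => ⟨m t, hlt t⟩, ?_, rfl⟩
    simp only [mem_filter, mem_univ, true_and]
    have h2 := (hkey m hlt).mpr ⟨hm.1, by rw [← prt_parts d m hm.1, hm.2]⟩
    intro j
    rw [← h2 j]
    congr 1
    ext t
    simp [Fin.ext_iff]

lemma multinomial_bfun (d q : ℕ) (hdq : d ≤ q) (π : Nat.Partition d) :
    (Nat.multinomial univ (bfun d q π) : ℝ) =
      (q.factorial : ℝ) / (((q - Multiset.card π.parts).factorial : ℝ) *
      ∏ j ∈ Icc 1 d, ((π.parts.count j).factorial : ℝ)) := by
  have h := Nat.multinomial_spec (s := univ) (f := bfun d q π)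
  rw [sum_bfun d q hdq π] at h
  have h2 : (∏ j, ((bfun d q π j).factorial : ℝ)) * (Nat.multinomial univ (bfun d q π) : ℝ)
      = (q.factorial : ℝ) := by exact_mod_cast h
  have h3 : (∏ j, ((bfun d q π j).factorial : ℝ)) = ((q - Multiset.card π.parts).factorial : ℝ) *
      ∏ j ∈ Icc 1 d, ((π.parts.count j).factorial : ℝ) := by
    rw [Fin.prod_univ_succ]
    have e : ∀ i : Fin d, bfun d q π i.succ = π.parts.count (i.val + 1) := by
      intro i
      unfold bfun
      rw [if_neg (Fin.succ_ne_zero i)]
      rfl
    simp only [e]
    have e0 : bfun d q π 0 = q - Multiset.card π.parts := by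
      unfold bfun; rw [if_pos rfl]
    rw [e0]
    congr 1
    rw [Finset.prod_range (f := fun i => ((π.parts.count (i + 1)).factorial : ℝ)) |>.symm]
    rw [Finset.range_eq_Ico,
      Finset.prod_Ico_add' (fun j => ((π.parts.count j).factorial : ℝ)) 0 d 1]
    rfl
  rw [← h3, ← h2]
  have h4 : (∏ j, ((bfun d q π j).factorial : ℝ)) ≠ 0 :=
    Finset.prod_ne_zero_iff.mpr fun j _ => by positivity
  field_simp

theorem P_one_eq (d : ℕ) (hdq : d ≤ Fintype.card F) :
    P (ι := F) d (fun _ => 1) = Ksum d (Fintype.card F) := by
  unfold P Ksum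
  rw [← Finset.sum_fiberwise (piAntidiag (univ : Finset F) d) (prt d)]
  apply Finset.sum_congr rfl
  intro π _
  rw [← multinomial_bfun d _ hdq π, ← fiber_card d hdq π]
  have : ∀ m ∈ (piAntidiag (univ : Finset F) d).filter (fun m => prt d m = π),
      (Nat.multinomial univ m : ℝ) ^ 2 * ∏ t : F, (1 : ℝ) ^ m t
        = ((d.factorial : ℝ) / ((π.parts.map Nat.factorial).prod : ℝ)) ^ 2 := by
    intro m hm
    simp only [mem_filter, mem_piAntidiag, mem_univ, implies_true, and_true] at hm
    have h := Nat.multinomial_spec (s := univ) (f := m)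
    rw [hm.1] at h
    have h2 : (∏ j, ((m j).factorial : ℝ)) * (Nat.multinomial univ m : ℝ)
      = (d.factorial : ℝ) := by exact_mod_cast h
    have h3 : ((π.parts.map Nat.factorial).prod : ℝ) = ∏ j, ((m j).factorial : ℝ) := by
      rw [← hm.2, prt_parts d m hm.1, prod_fact]
      push_cast; rfl
    have h4 : (∏ j, ((m j).factorial : ℝ)) ≠ 0 :=
      Finset.prod_ne_zero_iff.mpr fun j _ => by positivity
    rw [h3, ← h2]
    simp only [one_pow, Finset.prod_const_one, mul_one]
    field_simp
  rw [Finset.sum_congr rfl this, Finset.sum_const, nsmul_eq_mul]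
  ring

end Q164.MC
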