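import Mathlib

open Finset

namespace Q164.MC

set_option linter.unusedSectionVars false

variable {F : Type*} [Field F] [DecidableEq F]

/-- Newton: in characteristic `p > d` the first `d` power sums determine a multiset of size `d`. -/
lemma newton_inj (p d : ℕ) [Fact p.Prime] [CharP F p] (hdp : d < p) (v w : Fin d → F)
    (h : ∀ i, 1 ≤ i → i ≤ d → ∑ k, v k ^ i = ∑ k, w k ^ i) :
    (univ.val.map v : Multiset F) = univ.val.map w := by
  have he : ∀ k, k ≤ d → MvPolynomial.aeval v (MvPolynomial.esymm (Fin d) F k)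
      = MvPolynomial.aeval w (MvPolynomial.esymm (Fin d) F k) := by
    intro k
    induction k using Nat.strong_induction_on with
    | _ k ih =>
      intro hk
      rcases Nat.eq_zero_or_pos k with rfl | hk0
      · simp
      have hkF : (k : F) ≠ 0 := by
        rw [Ne, CharP.cast_eq_zero_iff F p]
        intro hdvd
        have := Nat.le_of_dvd hk0 hdvd
        omega
      have key : ∀ u : Fin d → F, (k : F) * MvPolynomial.aeval u (MvPolynomial.esymm (Fin d) F k)
          = (-1) ^ (k + 1) * ∑ a ∈ (antidiagonal k).filter (fun a => a.1 < k),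
            (-1) ^ a.1 * MvPolynomial.aeval u (MvPolynomial.esymm (Fin d) F a.1)
              * ∑ i, u i ^ a.2 := by
        intro u
        have := congrArg (MvPolynomial.aeval u) (MvPolynomial.mul_esymm_eq_sum (Fin d) F k)
        simpa [MvPolynomial.psum] using this
      have hv := key v
      have hw := key w
      have : (k : F) * MvPolynomial.aeval v (MvPolynomial.esymm (Fin d) F k)
          = (k : F) * MvPolynomial.aeval w (MvPolynomial.esymm (Fin d) F k) := by
        rw [hv, hw]
        congr 1
        apply Finset.sum_congr rfl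
        intro a ha
        simp only [mem_filter, HasAntidiagonal.mem_antidiagonal] at ha
        rw [ih a.1 ha.2 (by omega), h a.2 (by omega) (by omega)]
      exact mul_left_cancel₀ hkF this
  have he' : ∀ k, k ≤ d → (univ.val.map v : Multiset F).esymm k
      = (univ.val.map w : Multiset F).esymm k := by
    intro k hk
    have := he k hk
    rwa [MvPolynomial.aeval_esymm_eq_multiset_esymm, MvPolynomial.aeval_esymm_eq_multiset_esymm]
      at this
  have hc : ∀ u : Fin d → F, Multiset.card (univ.val.map u : Multiset F) = d := by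
    intro u; simp
  have hprod : ((univ.val.map v : Multiset F).map fun t => Polynomial.X - Polynomial.C t).prod
      = ((univ.val.map w : Multiset F).map fun t => Polynomial.X - Polynomial.C t).prod := by
    rw [Multiset.prod_X_sub_X_eq_sum_esymm, Multiset.prod_X_sub_X_eq_sum_esymm, hc, hc]
    apply Finset.sum_congr rfl
    intro j hj
    rw [mem_range] at hj
    rw [he' j (by omega)]
  rw [← Polynomial.roots_multiset_prod_X_sub_C (univ.val.map v : Multiset F), hprod,
    Polynomial.roots_multiset_prod_X_sub_C]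

lemma exists_list (d : ℕ) (M : Multiset F) (hM : Multiset.card M = d) :
    ∃ v : Fin d → F, (univ.val.map v : Multiset F) = M := by
  induction M using Quotient.inductionOn with
  | _ l =>
    subst hM
    refine ⟨fun i => l.get i, ?_⟩
    rw [Fin.univ_val_map]
    exact congrArg _ (List.ofFn_get l)

variable [Fintype F]

lemma moments_inj (p d : ℕ) [Fact p.Prime] [CharP F p] (hdp : d < p) (m m' : F → ℕ)
    (hm : ∑ t, m t = d) (hm' : ∑ t, m' t = d)
    (h : ∀ i : Fin d, ∑ t, (m t : F) * t ^ (i.val + 1) = ∑ t, (m' t : F) * t ^ (i.val + 1)) :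
    m = m' := by
  set M : (F → ℕ) → Multiset F := fun n => ∑ t, Multiset.replicate (n t) t with hM
  have hcard : ∀ n : F → ℕ, Multiset.card (M n) = ∑ t, n t := by
    intro n; simp [hM]
  have hcount : ∀ (n : F → ℕ) t, Multiset.count t (M n) = n t := by
    intro n t
    simp [hM, Multiset.count_sum', Multiset.count_replicate]
  have hpow : ∀ (n : F → ℕ) (v : Fin d → F), (univ.val.map v : Multiset F) = M n → ∀ i,
      ∑ k, v k ^ i = ∑ t, (n t : F) * t ^ i := by
    intro n v hv i
    have e1 : ∑ k, v k ^ i = ((univ.val.map v : Multiset F).map fun t => t ^ i).sum := by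
      rw [Multiset.map_map]; rfl
    rw [e1, hv]
    have e2 : (M n).map (fun t => t ^ i) = ∑ t, Multiset.replicate (n t) (t ^ i) := by
      rw [hM]
      simp only [← Multiset.coe_mapAddMonoidHom, map_sum]
      simp
    rw [e2]
    rw [Multiset.sum_sum]
    simp
  obtain ⟨v, hv⟩ := exists_list d (M m) (by rw [hcard, hm])
  obtain ⟨w, hw⟩ := exists_list d (M m') (by rw [hcard, hm'])
  have hvw := newton_inj p d hdp v w (by
    intro i h1 h2
    rw [hpow m v hv, hpow m' w hw]
    have := h ⟨i - 1, by omega⟩
    simpa [Nat.sub_add_cancel h1] using this)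
  funext t
  rw [← hcount m t, ← hcount m' t, ← hv, ← hw, hvw]

/-- Plancherel for distinct frequencies. -/
lemma plancherel (d : ℕ) (ψ : AddChar F ℂ) (hψ : ψ.IsPrimitive) {N : Type*} [DecidableEq N]
    (S : Finset N)
    (v : N → Fin d → F) (hv : ∀ m ∈ S, ∀ m' ∈ S, v m = v m' → m = m') (a : N → ℂ) :
    ∑ x : Fin d → F, ‖∑ m ∈ S, a m * ψ (∑ i, x i * v m i)‖ ^ 2
      = (Fintype.card F : ℝ) ^ d * ∑ m ∈ S, ‖a m‖ ^ 2 := by
  have horth : ∀ w : Fin d → F, ∑ x : Fin d → F, ψ (∑ i, x i * w i)
      = if w = 0 then (Fintype.card F : ℂ) ^ d else 0 := by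
    intro w
    have e1 : ∀ x : Fin d → F, ψ (∑ i, x i * w i) = ∏ i, ψ (x i * w i) := by
      intro x
      have := map_prod ψ.toMonoidHom (fun i => Multiplicative.ofAdd (x i * w i)) univ
      rw [← ofAdd_sum] at this
      exact this
    simp only [e1]
    have e2 : ∑ x : Fin d → F, ∏ i, ψ (x i * w i) = ∏ i : Fin d, ∑ y : F, ψ (y * w i) := by
      rw [Finset.prod_univ_sum, Fintype.piFinset_univ]
    rw [e2]
    simp only [AddChar.sum_mulShift _ hψ]
    split_ifs with hw
    · subst hw; simp
    · obtain ⟨i, hi⟩ : ∃ i, w i ≠ 0 := by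
        by_contra hcon
        push Not at hcon
        exact hw (funext hcon)
      apply Finset.prod_eq_zero (mem_univ i)
      simp [hi]
  have hC : ((∑ x : Fin d → F, ‖∑ m ∈ S, a m * ψ (∑ i, x i * v m i)‖ ^ 2 : ℝ) : ℂ)
      = (((Fintype.card F : ℝ) ^ d * ∑ m ∈ S, ‖a m‖ ^ 2 : ℝ) : ℂ) := by
    push_cast
    have e3 : ∀ x : Fin d → F, ((‖∑ m ∈ S, a m * ψ (∑ i, x i * v m i)‖ : ℂ)) ^ 2
        = ∑ m ∈ S, ∑ m' ∈ S, (a m * (starRingEnd ℂ) (a m')) *
          ψ (∑ i, x i * (v m i - v m' i)) := by
      intro x
      rw [← Complex.mul_conj', map_sum, Finset.sum_mul_sum]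
      apply Finset.sum_congr rfl; intro m _
      apply Finset.sum_congr rfl; intro m' _
      rw [map_mul, ← AddChar.map_neg_eq_conj]
      have e4 : ∑ i, x i * (v m i - v m' i) = (∑ i, x i * v m i) + -(∑ i, x i * v m' i) := by
        rw [← sub_eq_add_neg, ← Finset.sum_sub_distrib]
        apply Finset.sum_congr rfl; intro i _; ring
      rw [e4, AddChar.map_add_eq_mul]
      ring
    simp only [e3]
    rw [Finset.sum_comm]
    simp only [Finset.mul_sum]
    apply Finset.sum_congr rfl
    intro m hm
    rw [Finset.sum_comm]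
    have e5 : ∀ m' ∈ S, ∑ x : Fin d → F, (a m * (starRingEnd ℂ) (a m')) *
        ψ (∑ i, x i * (v m i - v m' i)) = if m' = m then
          (Fintype.card F : ℂ) ^ d * (‖a m‖ : ℂ) ^ 2 else 0 := by
      intro m' hm'
      rw [← Finset.mul_sum]
      have := horth (fun i => v m i - v m' i)
      rw [this]
      by_cases hmm : m' = m
      · subst hmm
        rw [if_pos rfl, if_pos (by funext i; simp), ← Complex.mul_conj']
        ring
      · rw [if_neg hmm, if_neg, mul_zero]
        intro h0
        apply hmm
        apply hv m' hm' m hm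
        funext i
        have := congrFun h0 i
        simp only [Pi.zero_apply] at this
        exact (sub_eq_zero.mp this).symm
    rw [Finset.sum_congr rfl e5, Finset.sum_ite_eq' S m, if_pos hm]
  exact_mod_cast hC

end Q164.MC
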